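import Pool.Agent.H95.FJ.Defs

open MvPolynomial

namespace H61.FJ
open H95.FG H95.FI H95.FJ

/-- linear independence is an open condition along a polynomial curve -/
theorem t_SEMP : S_SEMP := by
  intro n q u t0 h0
  have hinj : LinearMap.ker (Fintype.linearCombination ℂ
      (fun i (k : Fin n) => (u i k).eval t0)) = ⊥ := by
    rw [LinearMap.ker_eq_bot]
    exact h0.fintypeLinearCombination_injective
  obtain ⟨g, hg⟩ := LinearMap.exists_leftInverse_of_injective _ hinj
  let M : Matrix (Fin q) (Fin q) (Polynomial ℂ) :=
    Matrix.of fun i j => ∑ k, Polynomial.C (g (Pi.single k 1) j) * u i k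
  have hM : ∀ (t : ℂ) (i j : Fin q), (M i j).eval t = g (fun k => (u i k).eval t) j := by
    intro t i j
    have h1 : (fun k => (u i k).eval t) = ∑ k, (u i k).eval t • (Pi.single k (1 : ℂ) : Fin n → ℂ) := by
      funext l
      simp [Finset.sum_apply, Pi.single_apply]
    rw [h1, map_sum, Finset.sum_apply]
    simp only [M, Matrix.of_apply, Polynomial.eval_finset_sum, Polynomial.eval_mul,
      Polynomial.eval_C, map_smul, Pi.smul_apply, smul_eq_mul]
    exact Finset.sum_congr rfl fun k _ => mul_comm _ _
  have hev : ∀ t : ℂ, M.det.eval t = (Matrix.of fun i => g (fun k => (u i k).eval t)).det := by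
    intro t
    rw [← Polynomial.coe_evalRingHom, RingHom.map_det]
    congr 1
    ext i j
    exact hM t i j
  have h1 : M.det.eval t0 = 1 := by
    rw [hev]
    have h2 : (Matrix.of fun i => g (fun k => (u i k).eval t0)) = (1 : Matrix (Fin q) (Fin q) ℂ) := by
      ext i j
      have h3 := LinearMap.congr_fun hg (Pi.single i 1)
      rw [LinearMap.comp_apply, Fintype.linearCombination_apply_single, one_smul,
        LinearMap.id_apply] at h3
      show g (fun k => (u i k).eval t0) j = _
      rw [h3, Matrix.one_apply, Pi.single_apply]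
      simp only [eq_comm]
    rw [h2, Matrix.det_one]
  have hne : M.det ≠ 0 := by
    intro h
    rw [h, Polynomial.eval_zero] at h1
    exact zero_ne_one h1
  refine (Polynomial.finite_setOf_isRoot hne).subset ?_
  intro t ht
  show M.det.eval t = 0
  by_contra hd
  apply ht
  rw [hev] at hd
  have h4 : IsUnit (Matrix.of fun i => g (fun k => (u i k).eval t)) :=
    (Matrix.isUnit_iff_isUnit_det _).mpr (isUnit_iff_ne_zero.mpr hd)
  have h5 := Matrix.linearIndependent_rows_iff_isUnit.mpr h4
  exact LinearIndependent.of_comp g h5

end H61.FJ
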